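import Mathlib
import Pool.Agent.L7h19.IT.Stm2
import Pool.Agent.W108.RK.EXP

/-!
# Project IT (owner helper19, problem MP_157626_nt): the majorant and its average over the signs
(`S_AVA`, `S_AVS`)
-/

set_option autoImplicit false
set_option linter.unusedSectionVars false

namespace Pool.Agent.L7h89.IT.Ava

open Finset Polynomial Pool.Agent.W262.RK Pool.Agent.W108.RK
open Pool.Agent.L7h19.IT

variable {J : Type} [Fintype J] [DecidableEq J] {z y : ℕ}

/-- sums over the divisors of a squarefree number -/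
lemma sum_dvs {n : ℕ} (hn : Squarefree n) (g : ℕ → ℝ) :
    ∑ d ∈ n.divisors, ∏ q ∈ d.primeFactors, g q = ∏ p ∈ n.primeFactors, (1 + g p) := by
  set F : ArithmeticFunction ℝ := ⟨fun d => if d = 0 then 0 else ∏ q ∈ d.primeFactors, g q,
    by simp⟩ with hF
  have hFa : ∀ d, d ≠ 0 → F d = ∏ q ∈ d.primeFactors, g q := fun d hd => if_neg hd
  have hmul : F.IsMultiplicative := by
    refine ⟨by rw [hFa 1 one_ne_zero]; simp, ?_⟩
    intro a b hab
    rcases Nat.eq_zero_or_pos a with ha | ha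
    · rw [ha, zero_mul]; simp
    rcases Nat.eq_zero_or_pos b with hb | hb
    · rw [hb, mul_zero]; simp
    rw [hFa _ ha.ne', hFa _ hb.ne', hFa _ (Nat.mul_pos ha hb).ne', hab.primeFactors_mul,
      prod_union hab.disjoint_primeFactors]
  have h2 := hmul.prodPrimeFactors_one_add_of_squarefree hn
  have e1 : ∏ p ∈ n.primeFactors, (1 + g p) = ∏ p ∈ n.primeFactors, (1 + F p) :=
    prod_congr rfl fun p hp => by
      have hpp := Nat.prime_of_mem_primeFactors hp
      rw [hFa p hpp.ne_zero, hpp.primeFactors, prod_singleton]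
  have e2 : ∑ d ∈ n.divisors, ∏ q ∈ d.primeFactors, g q = ∑ d ∈ n.divisors, F d :=
    sum_congr rfl fun d hd => by rw [hFa d (Nat.pos_of_mem_divisors hd).ne']
  rw [e1, e2, h2]

/-- the symbols are signs -/
lemma lam_sign {ε : ℕ → ℤ} (hε : ∀ p, ε p = 1 ∨ ε p = -1) {p q : ℕ} (hp : p.Prime)
    (hq : q.Prime) : lam ε p q = 1 ∨ lam ε p q = -1 := by
  unfold lam
  split_ifs with h
  · exact hε p
  · apply jacobiSym.eq_one_or_neg_one
    rw [Int.gcd_natCast_natCast]
    exact (Nat.coprime_primes hq hp).2 h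

lemma prod_sign {α : Type*} (S : Finset α) (f : α → ℤ) (h : ∀ a ∈ S, f a = 1 ∨ f a = -1) :
    ∏ a ∈ S, f a = 1 ∨ ∏ a ∈ S, f a = -1 := by
  classical
  induction S using Finset.induction_on with
  | empty => left; simp
  | insert a S ha ih =>
    rw [prod_insert ha]
    have h1 := h a (mem_insert_self a S)
    have h2 := ih fun b hb => h b (mem_insert_of_mem hb)
    rcases h1 with h1 | h1 <;> rcases h2 with h2 | h2 <;> rw [h1, h2] <;> norm_num

/-- the inner products as real numbers -/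
lemma inner_sign {ε : ℕ → ℤ} (hε : ∀ p, ε p = 1 ∨ ε p = -1) (e : ℕ) {q : ℕ} (hq : q.Prime) :
    ∏ p ∈ e.primeFactors, (lam ε p q : ℝ) = 1 ∨ ∏ p ∈ e.primeFactors, (lam ε p q : ℝ) = -1 := by
  have h := prod_sign e.primeFactors (fun p => lam ε p q)
    (fun p hp => lam_sign hε (Nat.prime_of_mem_primeFactors hp) hq)
  rcases h with h | h
  · left
    exact_mod_cast h
  · right
    exact_mod_cast h

lemma fac_nonneg {ε : ℕ → ℤ} (hε : ∀ p, ε p = 1 ∨ ε p = -1) (e : ℕ) {q : ℕ} (hq : q.Prime) :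
    0 ≤ 1 + ∏ p ∈ e.primeFactors, (lam ε p q : ℝ) := by
  rcases inner_sign hε e hq with h | h <;> rw [h] <;> norm_num

lemma fac_le {ε : ℕ → ℤ} (hε : ∀ p, ε p = 1 ∨ ε p = -1) (e : ℕ) {q : ℕ} (hq : q.Prime) :
    1 + ∏ p ∈ e.primeFactors, (lam ε p q : ℝ) ≤ 2 := by
  rcases inner_sign hε e hq with h | h <;> rw [h] <;> norm_num

/-- `∑_{d ∣ m}` -/
lemma sum_up {m : ℕ} (hm : Squarefree m) (ε : ℕ → ℤ) (e : ℕ) :
    ∑ d ∈ m.divisors, ∏ p ∈ e.primeFactors, ∏ q ∈ d.primeFactors, (lam ε p q : ℝ) =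
      ∏ q ∈ m.primeFactors, (1 + ∏ p ∈ e.primeFactors, (lam ε p q : ℝ)) := by
  rw [← sum_dvs hm]
  exact sum_congr rfl fun d _ => prod_comm

/-- the formula for `N3` -/
lemma N3_eq {m n : ℕ} (hm : Squarefree m) (hn : Squarefree n) {ε : ℕ → ℤ}
    (hε : ∀ p, ε p = 1 ∨ ε p = -1) :
    (N3 ε m n : ℝ) = (∑ e ∈ n.divisors,
      ∏ q ∈ m.primeFactors, (1 + ∏ p ∈ e.primeFactors, (lam ε p q : ℝ))) /
      2 ^ n.primeFactors.card := by
  have h1 : ∀ d ∈ m.divisors,
      (if ∀ p ∈ n.primeFactors, ∏ q ∈ d.primeFactors, lam ε p q = 1 then (1 : ℝ) else 0) =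
      (∑ e ∈ n.divisors, ∏ p ∈ e.primeFactors, ∏ q ∈ d.primeFactors, (lam ε p q : ℝ)) /
        2 ^ n.primeFactors.card := by
    intro d hd
    rw [sum_dvs hn, ← prod_const, ← prod_div_distrib]
    have h2 : ∀ p ∈ n.primeFactors, (1 + ∏ q ∈ d.primeFactors, (lam ε p q : ℝ)) / 2 =
        if ∏ q ∈ d.primeFactors, lam ε p q = 1 then 1 else 0 := by
      intro p hp
      have hpp := Nat.prime_of_mem_primeFactors hp
      have h3 := prod_sign d.primeFactors (fun q => lam ε p q)
        (fun q hq => lam_sign hε hpp (Nat.prime_of_mem_primeFactors hq))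
      rcases h3 with h3 | h3
      · have h4 : ∏ q ∈ d.primeFactors, (lam ε p q : ℝ) = 1 := by exact_mod_cast h3
        rw [h4, if_pos h3]
        norm_num
      · have h4 : ∏ q ∈ d.primeFactors, (lam ε p q : ℝ) = -1 := by exact_mod_cast h3
        rw [h4, if_neg (by rw [h3]; norm_num)]
        norm_num
    rw [prod_congr rfl h2]
    by_cases h : ∀ p ∈ n.primeFactors, ∏ q ∈ d.primeFactors, lam ε p q = 1
    · rw [if_pos h]
      symm
      exact prod_eq_one fun p hp => if_pos (h p hp)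
    · rw [if_neg h]
      push Not at h
      obtain ⟨p, hp, hp1⟩ := h
      symm
      exact prod_eq_zero hp (if_neg hp1)
  unfold N3
  rw [card_filter]
  push_cast
  rw [sum_congr rfl h1, ← Finset.sum_div, sum_comm]
  congr 1
  exact sum_congr rfl fun e _ => sum_up hm ε e

lemma R3_eq {m n : ℕ} (hm : Squarefree m) (ε : ℕ → ℤ) :
    R3 ε m n = (∑ e ∈ n.divisors.erase 1,
      ∏ q ∈ m.primeFactors, (1 + ∏ p ∈ e.primeFactors, (lam ε p q : ℝ))) /
      2 ^ n.primeFactors.card := by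
  unfold R3
  rw [sum_comm]
  congr 1
  exact sum_congr rfl fun e _ => sum_up hm ε e

lemma R3_nonneg {m n : ℕ} (hm : Squarefree m) {ε : ℕ → ℤ} (hε : ∀ p, ε p = 1 ∨ ε p = -1) :
    0 ≤ R3 ε m n := by
  rw [R3_eq hm]
  exact div_nonneg (sum_nonneg fun e _ => prod_nonneg fun p hp =>
    fac_nonneg hε _ (Nat.prime_of_mem_primeFactors hp)) (by positivity)

lemma N3_R3 {m n : ℕ} (hm : Squarefree m) (hn : Squarefree n) {ε : ℕ → ℤ}
    (hε : ∀ p, ε p = 1 ∨ ε p = -1) :
    (N3 ε m n : ℝ) = 2 ^ m.primeFactors.card / 2 ^ n.primeFactors.card + R3 ε m n := by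
  rw [N3_eq hm hn hε, R3_eq hm, ← add_div]
  congr 1
  rw [← add_sum_erase _ _ (Nat.one_mem_divisors.2 hn.ne_zero)]
  congr 1
  rw [← prod_const]
  refine prod_congr rfl fun p _ => ?_
  rw [Nat.primeFactors_one, prod_empty]
  norm_num

/-- growth of `N3` -/
lemma N3_mul_le {m n m' n' : ℕ} (hm : Squarefree (m * m')) (hn : Squarefree (n * n'))
    {ε : ℕ → ℤ} (hε : ∀ p, ε p = 1 ∨ ε p = -1) :
    (N3 ε (m * m') (n * n') : ℝ) ≤ 2 ^ m'.primeFactors.card * N3 ε m n := by
  have hn0 : n ≠ 0 := fun h => hn.ne_zero (by rw [h, zero_mul])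
  have hn0' : n' ≠ 0 := fun h => hn.ne_zero (by rw [h, mul_zero])
  have hm1 : Squarefree m := hm.squarefree_of_dvd (Dvd.intro _ rfl)
  have hn1 : Squarefree n := hn.squarefree_of_dvd (Dvd.intro _ rfl)
  have hmm : m.Coprime m' := Nat.coprime_of_squarefree_mul hm
  have h1 : N3 ε (m * m') (n * n') ≤ N3 ε (m * m') n := by
    unfold N3
    refine card_le_card fun d hd => ?_
    rw [mem_filter] at hd ⊢
    refine ⟨hd.1, fun p hp => hd.2 p ?_⟩
    rw [Nat.primeFactors_mul hn0 hn0']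
    exact mem_union_left _ hp
  have h2 : (N3 ε (m * m') n : ℝ) ≤ 2 ^ m'.primeFactors.card * N3 ε m n := by
    rw [N3_eq hm hn1 hε, N3_eq hm1 hn1 hε, ← mul_div_assoc, mul_sum]
    refine div_le_div_of_nonneg_right (sum_le_sum fun e _ => ?_) (by positivity)
    rw [hmm.primeFactors_mul, prod_union hmm.disjoint_primeFactors, mul_comm]
    refine mul_le_mul_of_nonneg_right ?_ (prod_nonneg fun p hp =>
      fac_nonneg hε _ (Nat.prime_of_mem_primeFactors hp))
    rw [← prod_const]
    exact prod_le_prod (fun p hp => fac_nonneg hε _ (Nat.prime_of_mem_primeFactors hp))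
      fun p hp => fac_le hε _ (Nat.prime_of_mem_primeFactors hp)
  exact (by exact_mod_cast h1 : (N3 ε (m * m') (n * n') : ℝ) ≤ N3 ε (m * m') n).trans h2

lemma eE_sign (E : Finset ℕ) (p : ℕ) : eE E p = 1 ∨ eE E p = -1 := by
  unfold eE
  split_ifs
  · right; rfl
  · left; rfl

lemma eE'_sign (E : Finset ℕ) (p : ℕ) : eE' E p = 1 ∨ eE' E p = -1 := by
  unfold eE'
  have h1 := eE_sign E p
  have h2 : jacobiSym (-1) p = 1 ∨ jacobiSym (-1) p = -1 := by
    apply jacobiSym.eq_one_or_neg_one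
    simp
  rcases h1 with h1 | h1 <;> rcases h2 with h2 | h2 <;> rw [h1, h2] <;> norm_num

/-- the bound for the majorant -/
lemma G3_le {m n : ℕ} (hm : Squarefree m) (hn : Squarefree n) (E : Finset ℕ) :
    G3 E m n ≤ 1 + R3 (eE E) m n + R3 (eE' E) n m + R3 (eE E) m n * R3 (eE' E) n m := by
  have hR := R3_nonneg (n := n) hm (eE_sign E)
  have hR' := R3_nonneg (n := m) hn (eE'_sign E)
  have key : ∀ (k l : ℕ) (R R' : ℝ), 0 ≤ R → 0 ≤ R' → l ≤ k →
      ((2 : ℝ) ^ k / 2 ^ l + R) * (2 ^ l / 2 ^ k + R') / (2 : ℝ) ^ |((k : ℕ) : ℝ) - ((l : ℕ) : ℝ)| ≤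
        1 + R + R' + R * R' := by
    intro k l R R' h1 h2 hkl
    have hkl' : (l : ℝ) ≤ k := by exact_mod_cast hkl
    rw [abs_of_nonneg (sub_nonneg.2 hkl'), Real.rpow_sub (by norm_num), Real.rpow_natCast,
      Real.rpow_natCast]
    set P : ℝ := 2 ^ k / 2 ^ l with hP
    have hP1 : 1 ≤ P := by
      rw [hP, one_le_div (by positivity)]
      exact pow_le_pow_right₀ (by norm_num) hkl
    have hP0 : 0 < P := by linarith
    have e1 : (2 : ℝ) ^ l / 2 ^ k = 1 / P := by
      rw [hP]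
      field_simp
    rw [e1]
    have e2 : (P + R) * (1 / P + R') / P = (1 + R / P) * (1 / P + R') := by
      field_simp
    rw [e2]
    have h3 : R / P ≤ R := div_le_self h1 hP1
    have h4 : 1 / P ≤ 1 := by
      rw [div_le_one hP0]
      exact hP1
    have h5 : 0 ≤ R / P := by positivity
    have h6 : 0 ≤ 1 / P := by positivity
    calc (1 + R / P) * (1 / P + R') ≤ (1 + R) * (1 + R') := by gcongr
      _ = _ := by ring
  unfold G3
  rw [N3_R3 hm hn (eE_sign E), N3_R3 hn hm (eE'_sign E)]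
  rcases le_total n.primeFactors.card m.primeFactors.card with h | h
  · exact key _ _ _ _ hR hR' h
  · have := key _ _ _ _ hR' hR h
    rw [abs_sub_comm] at this
    calc _ = (2 ^ n.primeFactors.card / 2 ^ m.primeFactors.card + R3 (eE' E) n m) *
          (2 ^ m.primeFactors.card / 2 ^ n.primeFactors.card + R3 (eE E) m n) /
          (2 : ℝ) ^ |((m.primeFactors.card : ℕ) : ℝ) - ((n.primeFactors.card : ℕ) : ℝ)| := by
            rw [mul_comm (2 ^ m.primeFactors.card / 2 ^ n.primeFactors.card + R3 (eE E) m n)]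
      _ ≤ _ := this
      _ = _ := by ring

/-- growth of `G3` -/
lemma G3_mul_le {m n m' n' : ℕ} (hm : Squarefree (m * m')) (hn : Squarefree (n * n'))
    (E : Finset ℕ) :
    G3 E (m * m') (n * n') ≤ 4 ^ (m'.primeFactors.card + n'.primeFactors.card) * G3 E m n := by
  have hmm : m.Coprime m' := Nat.coprime_of_squarefree_mul hm
  have hnn : n.Coprime n' := Nat.coprime_of_squarefree_mul hn
  have c1 : (m * m').primeFactors.card = m.primeFactors.card + m'.primeFactors.card := by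
    rw [hmm.primeFactors_mul, card_union_of_disjoint hmm.disjoint_primeFactors]
  have c2 : (n * n').primeFactors.card = n.primeFactors.card + n'.primeFactors.card := by
    rw [hnn.primeFactors_mul, card_union_of_disjoint hnn.disjoint_primeFactors]
  set a : ℝ := ((m.primeFactors.card : ℕ) : ℝ) - ((n.primeFactors.card : ℕ) : ℝ) with ha
  set a' : ℝ := (((m * m').primeFactors.card : ℕ) : ℝ) - (((n * n').primeFactors.card : ℕ) : ℝ)
    with ha'
  set e : ℕ := m'.primeFactors.card + n'.primeFactors.card with he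
  have h1 : |a| ≤ |a'| + e := by
    have e1 : a = a' - (m'.primeFactors.card : ℝ) + (n'.primeFactors.card : ℝ) := by
      rw [ha, ha', c1, c2]
      push_cast
      ring
    have e2 : (0 : ℝ) ≤ (m'.primeFactors.card : ℝ) := Nat.cast_nonneg _
    have e3 : (0 : ℝ) ≤ (n'.primeFactors.card : ℝ) := Nat.cast_nonneg _
    rw [he]
    push_cast
    rw [abs_le]
    have e4 := neg_abs_le a'
    have e5 := le_abs_self a'
    constructor <;> linarith
  have h2 : (1 : ℝ) / (2 : ℝ) ^ |a'| ≤ 2 ^ e / (2 : ℝ) ^ |a| := by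
    rw [div_le_div_iff₀ (Real.rpow_pos_of_pos (by norm_num) _)
      (Real.rpow_pos_of_pos (by norm_num) _), one_mul, ← Real.rpow_natCast, ← Real.rpow_add (by norm_num)]
    exact Real.rpow_le_rpow_of_exponent_le (by norm_num) (by linarith)
  have h3 := N3_mul_le hm hn (eE_sign E)
  have h4 := N3_mul_le hn hm (eE'_sign E)
  unfold G3
  calc (N3 (eE E) (m * m') (n * n') : ℝ) * (N3 (eE' E) (n * n') (m * m') : ℝ) / (2 : ℝ) ^ |a'|
      = (N3 (eE E) (m * m') (n * n') : ℝ) * (N3 (eE' E) (n * n') (m * m') : ℝ) *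
          (1 / (2 : ℝ) ^ |a'|) := by ring
    _ ≤ (2 ^ m'.primeFactors.card * N3 (eE E) m n) * (2 ^ n'.primeFactors.card * N3 (eE' E) n m) *
        (2 ^ e / (2 : ℝ) ^ |a|) := by gcongr
    _ = _ := by
        rw [show (4 : ℝ) = 2 * 2 from by norm_num, mul_pow, he]
        ring

lemma pP_sqf (P : J → Bool) {s : J → ℕ} (hs : s ∈ Tup J z y) : Squarefree (pP P s) := by
  unfold pP
  apply Finset.squarefree_prod_of_pairwise_isCoprime
  · intro i _ j _ hij
    exact Nat.coprime_iff_isRelPrime.1 ((mem_Tup.1 hs).2 i j hij)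
  · intro j _
    exact sqf_of_mem hs j

/-- **S_AVA** -/
theorem s_AVA : S_AVA := by
  intro J _ _ iB iC z y _ _ s hs E
  have hm := pP_sqf iB hs
  have hn := pP_sqf iC hs
  exact ⟨R3_nonneg hm (eE_sign E), R3_nonneg hn (eE'_sign E), G3_le hm hn E⟩

/-! ### Growth -/

/-- `N3` depends only on the signs at the common primes -/
lemma N3_congr {ε ε' : ℕ → ℤ} {m n : ℕ} (h : ∀ p, p ∈ m.primeFactors → p ∈ n.primeFactors →
    ε p = ε' p) (hm0 : m ≠ 0) : N3 ε m n = N3 ε' m n := by
  unfold N3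
  congr 1
  refine filter_congr fun d hd => ?_
  have hdm := Nat.dvd_of_mem_divisors hd
  refine forall₂_congr fun p hp => ?_
  have e : ∏ q ∈ d.primeFactors, lam ε p q = ∏ q ∈ d.primeFactors, lam ε' p q := by
    refine prod_congr rfl fun q hq => ?_
    unfold lam
    split_ifs with h1
    · subst h1
      exact h q (Nat.primeFactors_mono hdm hm0 hq) hp
    · rfl
  rw [e]

/-- the prime factors of `pP` -/
lemma mem_pP (P : J → Bool) {s : J → ℕ} (h0 : ∀ j, s j ≠ 0) (p : ℕ) :
    p ∈ (pP P s).primeFactors ↔ ∃ j, P j = true ∧ p ∈ (s j).primeFactors := by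
  unfold pP
  rw [Nat.mem_primeFactors]
  constructor
  · rintro ⟨hp, hd, _⟩
    obtain ⟨j, hj1, hj⟩ := (Prime.dvd_finsetProd_iff hp.prime _).1 hd
    exact ⟨j, (mem_filter.1 hj1).2, Nat.mem_primeFactors.2 ⟨hp, hj, h0 j⟩⟩
  · rintro ⟨j, hj1, hj⟩
    exact ⟨Nat.prime_of_mem_primeFactors hj,
      (Nat.dvd_of_mem_primeFactors hj).trans
        (dvd_prod_of_mem s (mem_filter.2 ⟨mem_univ _, hj1⟩)),
      prod_ne_zero_iff.2 fun j _ => h0 j⟩

lemma mem_PW (iB iC : J → Bool) {s : J → ℕ} (h0 : ∀ j, s j ≠ 0) (p : ℕ) :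
    p ∈ PW iB iC s ↔ ∃ j, iB j = true ∧ iC j = true ∧ p ∈ (s j).primeFactors := by
  unfold PW
  rw [Nat.mem_primeFactors]
  constructor
  · rintro ⟨hp, hd, _⟩
    obtain ⟨j, hj1, hj⟩ := (Prime.dvd_finsetProd_iff hp.prime _).1 hd
    exact ⟨j, (mem_filter.1 hj1).2.1, (mem_filter.1 hj1).2.2, Nat.mem_primeFactors.2 ⟨hp, hj, h0 j⟩⟩
  · rintro ⟨j, hj1, hj2, hj⟩
    exact ⟨Nat.prime_of_mem_primeFactors hj,
      (Nat.dvd_of_mem_primeFactors hj).trans
        (dvd_prod_of_mem s (mem_filter.2 ⟨mem_univ _, hj1, hj2⟩)),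
      prod_ne_zero_iff.2 fun j _ => h0 j⟩

/-- `G3` depends only on the signs at the common primes -/
lemma G3_congr (iB iC : J → Bool) {s : J → ℕ} (hs : s ∈ Tup J z y) {E E' : Finset ℕ}
    (h : ∀ p ∈ PW iB iC s, p ∈ E ↔ p ∈ E') :
    G3 E (pP iB s) (pP iC s) = G3 E' (pP iB s) (pP iC s) := by
  have h0 : ∀ j, s j ≠ 0 := fun j => (sqf_of_mem hs j).ne_zero
  have hc : ∀ p, p ∈ (pP iB s).primeFactors → p ∈ (pP iC s).primeFactors → p ∈ PW iB iC s := by
    intro p h1 h2
    obtain ⟨j, hj, hpj⟩ := (mem_pP iB h0 p).1 h1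
    obtain ⟨k, hk, hpk⟩ := (mem_pP iC h0 p).1 h2
    have hjk : j = k := by
      by_contra hne
      have := ((mem_Tup.1 hs).2 j k hne).disjoint_primeFactors
      exact (Finset.disjoint_left.1 this) hpj hpk
    subst hjk
    exact (mem_PW iB iC h0 p).2 ⟨j, hj, hk, hpj⟩
  have hsgn : ∀ p ∈ PW iB iC s, eE E p = eE E' p := by
    intro p hp
    unfold eE
    by_cases h1 : p ∈ E
    · rw [if_pos h1, if_pos ((h p hp).1 h1)]
    · rw [if_neg h1, if_neg fun h2 => h1 ((h p hp).2 h2)]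
  unfold G3
  rw [N3_congr (fun p h1 h2 => hsgn p (hc p h1 h2)) (pP_sqf iB hs).ne_zero,
    N3_congr (ε := eE' E) (ε' := eE' E') (fun p h1 h2 => by
      unfold eE'
      rw [hsgn p (hc p h2 h1)]) (pP_sqf iC hs).ne_zero]

lemma G3_nonneg (E : Finset ℕ) (m n : ℕ) : 0 ≤ G3 E m n := by
  unfold G3
  positivity

/-- **S_AVS** -/
theorem s_AVS : S_AVS := by
  intro J _ _ iB iC z y s e _ _ hse
  have h0 : ∀ j, s j * e j ≠ 0 := fun j => (sqf_of_mem hse j).ne_zero
  have hs0 : ∀ j, s j ≠ 0 := fun j h => h0 j (by rw [h, zero_mul])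
  have he0 : ∀ j, e j ≠ 0 := fun j h => h0 j (by rw [h, mul_zero])
  have hs : s ∈ Tup J z y := by
    rw [mem_Tup] at hse ⊢
    refine ⟨fun j => (Dvd.intro _ rfl).trans (hse.1 j), fun i j hij => ?_⟩
    exact ((hse.2 i j hij).coprime_dvd_left (Dvd.intro _ rfl)).coprime_dvd_right (Dvd.intro _ rfl)
  have he : e ∈ Tup J z y := by
    rw [mem_Tup] at hse ⊢
    refine ⟨fun j => (Dvd.intro_left _ rfl).trans (hse.1 j), fun i j hij => ?_⟩
    exact ((hse.2 i j hij).coprime_dvd_left (Dvd.intro_left _ rfl)).coprime_dvd_right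
      (Dvd.intro_left _ rfl)
  have hpP : ∀ P, pP P (fun j => s j * e j) = pP P s * pP P e := fun P => by
    unfold pP
    rw [prod_mul_distrib]
  -- the common primes
  have hU : PW iB iC (fun j => s j * e j) = PW iB iC s ∪ PW iB iC e := by
    ext p
    rw [mem_union, mem_PW iB iC h0, mem_PW iB iC hs0, mem_PW iB iC he0]
    constructor
    · rintro ⟨j, h1, h2, h3⟩
      rw [Nat.primeFactors_mul (hs0 j) (he0 j), mem_union] at h3
      rcases h3 with h3 | h3
      · exact Or.inl ⟨j, h1, h2, h3⟩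
      · exact Or.inr ⟨j, h1, h2, h3⟩
    · rintro (⟨j, h1, h2, h3⟩ | ⟨j, h1, h2, h3⟩)
      · exact ⟨j, h1, h2, by rw [Nat.primeFactors_mul (hs0 j) (he0 j)]; exact mem_union_left _ h3⟩
      · exact ⟨j, h1, h2, by rw [Nat.primeFactors_mul (hs0 j) (he0 j)]; exact mem_union_right _ h3⟩
  have hcop : ∀ i j, (s i).Coprime (e j) := by
    intro i j
    by_cases hij : i = j
    · subst hij
      exact Nat.coprime_of_squarefree_mul (sqf_of_mem hse i)
    · exact (((mem_Tup.1 hse).2 i j hij).coprime_dvd_left (Dvd.intro _ rfl)).coprime_dvd_right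
        (Dvd.intro_left _ rfl)
  have hdis : Disjoint (PW iB iC s) (PW iB iC e) := by
    rw [Finset.disjoint_left]
    intro p h1 h2
    obtain ⟨i, -, -, hi⟩ := (mem_PW iB iC hs0 p).1 h1
    obtain ⟨j, -, -, hj⟩ := (mem_PW iB iC he0 p).1 h2
    exact (Finset.disjoint_left.1 (hcop i j).disjoint_primeFactors) hi hj
  -- the exponents
  set w : ℕ := (pP iB e).primeFactors.card + (pP iC e).primeFactors.card with hw
  have hcard : ∀ P : J → Bool, (pP P e).primeFactors.card ≤ ∑ j, (e j).primeFactors.card := by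
    intro P
    have hsub : (pP P e).primeFactors ⊆ univ.biUnion fun j => (e j).primeFactors := by
      intro p hp
      obtain ⟨j, -, hj⟩ := (mem_pP P he0 p).1 hp
      exact mem_biUnion.2 ⟨j, mem_univ _, hj⟩
    exact (card_le_card hsub).trans card_biUnion_le
  have hw2 : w ≤ 2 * ∑ j, (e j).primeFactors.card := by
    have h1 := hcard iB
    have h2 := hcard iC
    omega
  have hG : ∀ E, G3 E (pP iB (fun j => s j * e j)) (pP iC (fun j => s j * e j)) ≤
      4 ^ w * G3 (E ∩ PW iB iC s) (pP iB s) (pP iC s) := by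
    intro E
    have h1 := pP_sqf iB hse
    have h2 := pP_sqf iC hse
    rw [hpP] at h1 h2
    rw [hpP, hpP]
    refine (G3_mul_le h1 h2 E).trans (le_of_eq ?_)
    rw [G3_congr iB iC hs (E := E) (E' := E ∩ PW iB iC s)]
    intro p hp
    rw [mem_inter]
    exact ⟨fun h => ⟨h, hp⟩, fun h => h.1⟩
  unfold AV
  have hsum : ∑ E ∈ (PW iB iC fun j => s j * e j).powerset,
      G3 (E ∩ PW iB iC s) (pP iB s) (pP iC s) =
      2 ^ (PW iB iC e).card * ∑ E ∈ (PW iB iC s).powerset, G3 E (pP iB s) (pP iC s) := by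
    rw [hU]
    have h1 : ∑ E ∈ (PW iB iC s ∪ PW iB iC e).powerset,
        G3 (E ∩ PW iB iC s) (pP iB s) (pP iC s) =
        ∑ x ∈ (PW iB iC s).powerset ×ˢ (PW iB iC e).powerset,
          G3 x.1 (pP iB s) (pP iC s) := by
      symm
      refine Finset.sum_bij' (fun x _ => x.1 ∪ x.2)
        (fun E _ => (E ∩ PW iB iC s, E ∩ PW iB iC e)) ?_ ?_ ?_ ?_ ?_
      · intro x hx
        rw [mem_product, mem_powerset, mem_powerset] at hx
        rw [mem_powerset]
        exact union_subset_union hx.1 hx.2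
      · intro E hE
        rw [mem_product, mem_powerset, mem_powerset]
        exact ⟨inter_subset_right, inter_subset_right⟩
      · intro x hx
        rw [mem_product, mem_powerset, mem_powerset] at hx
        have e1 : (x.1 ∪ x.2) ∩ PW iB iC s = x.1 := by
          ext p
          rw [mem_inter, mem_union]
          constructor
          · rintro ⟨h | h, h'⟩
            · exact h
            · exact absurd (hx.2 h) ((Finset.disjoint_left.1 hdis) h')
          · intro h
            exact ⟨Or.inl h, hx.1 h⟩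
        have e2 : (x.1 ∪ x.2) ∩ PW iB iC e = x.2 := by
          ext p
          rw [mem_inter, mem_union]
          constructor
          · rintro ⟨h | h, h'⟩
            · exact absurd h' ((Finset.disjoint_left.1 hdis) (hx.1 h))
            · exact h
          · intro h
            exact ⟨Or.inr h, hx.2 h⟩
        simp only [e1, e2]
      · intro E hE
        rw [mem_powerset] at hE
        simp only
        rw [← inter_union_distrib_left]
        exact inter_eq_left.2 hE
      · intro x hx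
        rw [mem_product, mem_powerset, mem_powerset] at hx
        have e1 : (x.1 ∪ x.2) ∩ PW iB iC s = x.1 := by
          ext p
          rw [mem_inter, mem_union]
          constructor
          · rintro ⟨h | h, h'⟩
            · exact h
            · exact absurd (hx.2 h) ((Finset.disjoint_left.1 hdis) h')
          · intro h
            exact ⟨Or.inl h, hx.1 h⟩
        simp only [e1]
    rw [h1, sum_product_right]
    simp only [sum_const, card_powerset, nsmul_eq_mul]
    push_cast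
    rfl
  have hc : (PW iB iC fun j => s j * e j).card = (PW iB iC s).card + (PW iB iC e).card := by
    rw [hU, card_union_of_disjoint hdis]
  have hS0 : 0 ≤ ∑ E ∈ (PW iB iC s).powerset, G3 E (pP iB s) (pP iC s) :=
    sum_nonneg fun E _ => G3_nonneg _ _ _
  calc (1 / 2 : ℝ) ^ (PW iB iC fun j => s j * e j).card *
        ∑ E ∈ (PW iB iC fun j => s j * e j).powerset,
          G3 E (pP iB fun j => s j * e j) (pP iC fun j => s j * e j)
      ≤ (1 / 2 : ℝ) ^ (PW iB iC fun j => s j * e j).card *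
        ∑ E ∈ (PW iB iC fun j => s j * e j).powerset,
          4 ^ w * G3 (E ∩ PW iB iC s) (pP iB s) (pP iC s) :=
        mul_le_mul_of_nonneg_left (sum_le_sum fun E _ => hG E) (by positivity)
    _ = 4 ^ w * ((1 / 2 : ℝ) ^ (PW iB iC s).card *
          ∑ E ∈ (PW iB iC s).powerset, G3 E (pP iB s) (pP iC s)) := by
        rw [← mul_sum, hsum, hc, pow_add]
        have : ((1 : ℝ) / 2) ^ (PW iB iC e).card * 2 ^ (PW iB iC e).card = 1 := by
          rw [← mul_pow]; norm_num
        linear_combination (((1 : ℝ) / 2) ^ (PW iB iC s).card * 4 ^ w *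
          ∑ E ∈ (PW iB iC s).powerset, G3 E (pP iB s) (pP iC s)) * this
    _ ≤ 16 ^ (∑ j, (e j).primeFactors.card) * ((1 / 2 : ℝ) ^ (PW iB iC s).card *
          ∑ E ∈ (PW iB iC s).powerset, G3 E (pP iB s) (pP iC s)) := by
        refine mul_le_mul_of_nonneg_right ?_ (mul_nonneg (by positivity) hS0)
        rw [show (16 : ℝ) = 4 ^ 2 from by norm_num, ← pow_mul]
        exact pow_le_pow_right₀ (by norm_num) hw2

end Pool.Agent.L7h89.IT.Ava

theorem Pool.Agent.L7h89.IT.s_AVA : Pool.Agent.L7h19.IT.S_AVA := Pool.Agent.L7h89.IT.Ava.s_AVA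

theorem Pool.Agent.L7h89.IT.s_AVS : Pool.Agent.L7h19.IT.S_AVS := Pool.Agent.L7h89.IT.Ava.s_AVS
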